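import Pool.Agent.W534.PoleDefs
import Pool.Agent.Y163.Pow

/-!
# Short Tate classes on powers: definitions
-/

open CategoryTheory AlgebraicGeometry

universe u v

namespace Pool.Agent.Q68.FD

open Polynomial Pool.Agent.H914 Pool.Agent.W534 VarClass Obj WeilCohomology Pool.Agent.Y163

/-- `P` is a monic polynomial with integral coefficients all of whose complex roots have absolute
value `q ^ (i / 2)`, `q = p ^ e`, and all of whose roots in the algebraic closure of `ℚ_p` have
slopes with denominators dividing `D`: their absolute values are `q ^ (- m / D)` with natural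
numbers `m`. -/
structure IsWeilPoly (p e D i : ℕ) [Fact p.Prime] (P : ℤ[X]) : Prop where
  monic : P.Monic
  weil : ∀ z : ℂ, eval₂ (Int.castRingHom ℂ) z P = 0 → ‖z‖ ^ 2 = ((p : ℝ) ^ e) ^ i
  slope : ∀ z : PadicAlgCl p, eval₂ (Int.castRingHom (PadicAlgCl p)) z P = 0 →
    ∃ m : ℕ, ‖z‖ ^ D * ((p : ℝ) ^ e) ^ m = 1

/-- The number `2 (2 r a + 1) ^ r`. -/
def bound (r a : ℕ) : ℕ := 2 * (2 * r * a + 1) ^ r

variable {k : Type u} [Field k] {𝒱 : VarClass k} {ops : CycleOps 𝒱}
  {W : WeilCohomology.{u, v} ops} {p : ℕ}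

/-- The characteristic polynomials of the Frobenius endomorphism on the `H^i(X)` are Weil
polynomials with integral coefficients, and the denominators of their slopes divide `D`. -/
def HasWeilPolys [Fact p.Prime] (Φ : FrobSystem W p) (X : 𝒱.Obj) (D : ℕ) : Prop :=
  ∀ i, ∃ P : ℤ[X], IsWeilPoly p (Φ.e X) D i P ∧
    charpolyOn (W.map (Φ.Fr X)).toLinearMap (W.gr X i) = P.map (Int.castRingHom W.K)

/-- The projection of the power of `X` with `n + 1` factors to the power with `m + 1` factors given
by the factors with the numbers `g 0`, `g 1`, ..., `g m`. -/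
noncomputable def projTo (X : 𝒱.Obj) (n m : ℕ) (g : Fin (m + 1) → Fin (n + 1)) :
    pw X n ⟶ pw X m := tup m fun i => pr X n (g i)

/-- The pull-backs to `X ^ (n + 1)` of the generalised Tate classes on powers of `X` with at most
`N` factors under the projections. -/
def shortTate (Φ : FrobSystem W p) (X : 𝒱.Obj) (N n : ℕ) : Set (W.H (pw X n)) :=
  {c | ∃ m < N, ∃ (g : Fin (m + 1) → Fin (n + 1)) (s j : ℕ), 0 < s ∧
    ∃ t ∈ genTate Φ (pw X m) s j, c = W.map (projTo X n m g) t}

end Pool.Agent.Q68.FD
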