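import Pool.Agent.H997R2.Steinitz
import Pool.Agent.Q68.FD.Defs

/-!
# Short zero-sum sublists
-/

set_option autoImplicit false

open Finset

namespace Pool.Agent.Q68.FD

/-- More than `(2 r a + 1) ^ r` integral vectors of length `r` with entries bounded by `a` and sum
zero contain a nonempty subfamily with sum zero with at most `(2 r a + 1) ^ r` members. -/
theorem exists_short {n r a : ℕ} (u : Fin n → Fin r → ℤ) (hu : ∀ i j, |u i j| ≤ a)
    (hs : ∀ j, ∑ i, u i j = 0) (hn : (2 * r * a + 1) ^ r < n) :
    ∃ T : Finset (Fin n), T.Nonempty ∧ T.card ≤ (2 * r * a + 1) ^ r ∧ ∀ j, ∑ i ∈ T, u i j = 0 := by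
  classical
  set B := (2 * r * a + 1) ^ r with hB
  obtain ⟨σ, hσ⟩ := Pool.Agent.H997R2.Stz.steinitz (fun i j => (u i j : ℝ)) a (Nat.cast_nonneg _)
    (fun i j => by exact_mod_cast hu i j) (fun j => by exact_mod_cast hs j)
  have hbd : ∀ k ≤ n, ∀ j : Fin r, ∑ i ∈ univ.filter (fun i : Fin n => i.val < k), u (σ i) j ∈
      Finset.Icc (-((r * a : ℕ) : ℤ)) ((r * a : ℕ) : ℤ) := by
    intro k hk j
    have h := hσ k hk j
    rw [Finset.mem_Icc, ← abs_le]
    have h2 : ((|∑ i ∈ univ.filter (fun i : Fin n => i.val < k), u (σ i) j| : ℤ) : ℝ) ≤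
        ((r * a : ℕ) : ℤ) := by
      push_cast
      exact h
    exact_mod_cast h2
  let S : Fin (B + 1) → (Fin r → Finset.Icc (-((r * a : ℕ) : ℤ)) ((r * a : ℕ) : ℤ)) :=
    fun k j => ⟨_, hbd k.val (by omega) j⟩
  have hcard : Fintype.card (Fin r → Finset.Icc (-((r * a : ℕ) : ℤ)) ((r * a : ℕ) : ℤ)) <
      Fintype.card (Fin (B + 1)) := by
    rw [Fintype.card_fun, Fintype.card_fin, Fintype.card_fin, Fintype.card_coe, Int.card_Icc, hB]
    have : ((r * a : ℕ) + 1 - -((r * a : ℕ) : ℤ)).toNat = 2 * r * a + 1 := by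
      have h3 : ((r * a : ℕ) : ℤ) + 1 - -((r * a : ℕ) : ℤ) = ((2 * r * a + 1 : ℕ) : ℤ) := by
        push_cast; ring
      rw [h3, Int.toNat_natCast]
    rw [this]
    exact Nat.lt_succ_self _
  obtain ⟨x, y, hxy, hSxy⟩ := Fintype.exists_ne_map_eq_of_card_lt S hcard
  -- we may assume `x < y`
  obtain ⟨x, y, hlt, hSxy⟩ : ∃ x y : Fin (B + 1), x < y ∧ S x = S y := by
    rcases lt_or_gt_of_ne hxy with h | h
    · exact ⟨x, y, h, hSxy⟩
    · exact ⟨y, x, h, hSxy.symm⟩
  have hlt' : x.val < y.val := hlt
  have hyB : y.val ≤ B := by omega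
  have hsum : ∀ j, ∑ i ∈ univ.filter (fun i : Fin n => x.val ≤ i.val ∧ i.val < y.val), u (σ i) j = 0 := by
    intro j
    have h1 : ∑ i ∈ univ.filter (fun i : Fin n => i.val < x.val), u (σ i) j =
        ∑ i ∈ univ.filter (fun i : Fin n => i.val < y.val), u (σ i) j :=
      congrArg Subtype.val (congrFun hSxy j)
    have h2 : univ.filter (fun i : Fin n => i.val < y.val) =
        univ.filter (fun i : Fin n => i.val < x.val) ∪
          univ.filter (fun i : Fin n => x.val ≤ i.val ∧ i.val < y.val) := by
      ext i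
      simp only [mem_filter, mem_univ, true_and, mem_union]
      omega
    have h3 : Disjoint (univ.filter (fun i : Fin n => i.val < x.val))
        (univ.filter (fun i : Fin n => x.val ≤ i.val ∧ i.val < y.val)) := by
      rw [Finset.disjoint_left]
      intro i hi hi'
      simp only [mem_filter, mem_univ, true_and] at hi hi'
      omega
    rw [h2, sum_union h3] at h1
    omega
  refine ⟨(univ.filter (fun i : Fin n => x.val ≤ i.val ∧ i.val < y.val)).map σ.toEmbedding, ?_, ?_, ?_⟩
  · refine Finset.Nonempty.map ⟨⟨x.val, by omega⟩, ?_⟩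
    simp only [mem_filter, mem_univ, true_and]
    omega
  · rw [card_map]
    calc (univ.filter (fun i : Fin n => x.val ≤ i.val ∧ i.val < y.val)).card
        ≤ (Finset.range B).card := by
          refine Finset.card_le_card_of_injOn (fun i => i.val) ?_ ?_
          · intro i hi
            simp only [coe_filter, mem_univ, true_and, Set.mem_setOf_eq] at hi
            simp only [coe_range, Set.mem_Iio]
            omega
          · intro i _ j _ hij
            exact Fin.ext hij
      _ = B := card_range B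
  · intro j
    rw [sum_map]
    exact hsum j

/-- The list form. -/
theorem exists_split {β : Type*} {r a : ℕ} (u : β → Fin r → ℤ) (hu : ∀ i j, |u i j| ≤ a)
    (l : List β) (hl : l ≠ []) (hs : ∀ j, (l.map fun i => u i j).sum = 0) :
    ∃ l₁ l₂ : List β, l.Perm (l₁ ++ l₂) ∧ l₁ ≠ [] ∧ l₁.length ≤ (2 * r * a + 1) ^ r ∧
      ∀ j, (l₁.map fun i => u i j).sum = 0 := by
  classical
  by_cases hn : (2 * r * a + 1) ^ r < l.length
  · obtain ⟨T, hT, hTc, hTs⟩ := exists_short (fun k : Fin l.length => u (l.get k))
      (fun i j => hu _ j) (fun j => by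
        rw [← hs j]
        have h1 : (l.map fun i => u i j) = List.ofFn (fun k : Fin l.length => u (l.get k) j) := by
          conv_lhs => rw [← List.ofFn_get l]
          rw [List.map_ofFn]
          rfl
        rw [h1, List.sum_ofFn]) hn
    have hl' : l = (List.finRange l.length).map l.get := by
      rw [← List.ofFn_eq_map, List.ofFn_get]
    refine ⟨((List.finRange l.length).filter (fun k => decide (k ∈ T))).map l.get,
      ((List.finRange l.length).filter (fun k => !decide (k ∈ T))).map l.get, ?_, ?_, ?_, ?_⟩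
    · conv_lhs => rw [hl']
      rw [← List.map_append]
      exact (List.filter_append_perm _ _).symm.map _
    · obtain ⟨k, hk⟩ := hT
      intro h
      have h2 := List.map_eq_nil_iff.1 h
      have h3 : k ∈ (List.finRange l.length).filter (fun k => decide (k ∈ T)) :=
        List.mem_filter.2 ⟨List.mem_finRange k, by simpa using hk⟩
      rw [h2] at h3
      exact List.not_mem_nil h3
    · rw [List.length_map]
      refine le_trans (le_of_eq ?_) hTc
      have hnd : ((List.finRange l.length).filter (fun k => decide (k ∈ T))).Nodup :=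
        (List.nodup_finRange _).filter _
      rw [← List.toFinset_card_of_nodup hnd]
      congr 1
      ext k
      simp
    · intro j
      rw [List.map_map]
      have hnd : ((List.finRange l.length).filter (fun k => decide (k ∈ T))).Nodup :=
        (List.nodup_finRange _).filter _
      have h1 : ((List.finRange l.length).filter (fun k => decide (k ∈ T))).toFinset = T := by
        ext k
        simp
      have h2 := List.sum_toFinset (fun k : Fin l.length => u (l.get k) j) hnd
      rw [h1] at h2
      rw [← hTs j, h2]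
      rfl
  · exact ⟨l, [], by rw [List.append_nil], hl, not_lt.1 hn, hs⟩

/-- The list form, for sublists with an even sum of weights. -/
theorem exists_split_even {β : Type*} {r a : ℕ} (u : β → Fin r → ℤ) (hu : ∀ i j, |u i j| ≤ a)
    (w : β → ℕ) (l : List β) (hl : l ≠ []) (hs : ∀ j, (l.map fun i => u i j).sum = 0)
    (hw : Even (l.map w).sum) :
    ∃ l₁ l₂ : List β, l.Perm (l₁ ++ l₂) ∧ l₁ ≠ [] ∧ l₁.length ≤ bound r a ∧
      (∀ j, (l₁.map fun i => u i j).sum = 0) ∧ Even (l₁.map w).sum := by
  obtain ⟨l₁, l₂, hp, h1, h2, h3⟩ := exists_split u hu l hl hs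
  by_cases he : Even (l₁.map w).sum
  · exact ⟨l₁, l₂, hp, h1, by unfold bound; omega, h3, he⟩
  have hsum : (l.map w).sum = (l₁.map w).sum + (l₂.map w).sum := by
    rw [(hp.map w).sum_eq, List.map_append, List.sum_append]
  have hodd : ¬ Even (l₂.map w).sum := by
    intro h
    apply he
    rw [hsum] at hw
    exact (Nat.even_add.1 hw).2 h
  have hl₂ : l₂ ≠ [] := by
    rintro rfl
    exact hodd (by simp)
  have hs₂ : ∀ j, (l₂.map fun i => u i j).sum = 0 := by
    intro j
    have h4 := hs j
    rw [(hp.map (fun i => u i j)).sum_eq, List.map_append, List.sum_append, h3 j, zero_add] at h4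
    exact h4
  obtain ⟨m₁, m₂, hq, g1, g2, g3⟩ := exists_split u hu l₂ hl₂ hs₂
  by_cases he' : Even (m₁.map w).sum
  · refine ⟨m₁, l₁ ++ m₂, ?_, g1, by unfold bound; omega, g3, he'⟩
    refine hp.trans ?_
    calc (l₁ ++ l₂).Perm (l₁ ++ (m₁ ++ m₂)) := List.Perm.append_left _ hq
      _ = (l₁ ++ m₁) ++ m₂ := (List.append_assoc _ _ _).symm
      List.Perm _ ((m₁ ++ l₁) ++ m₂) := List.Perm.append_right _ List.perm_append_comm
      _ = m₁ ++ (l₁ ++ m₂) := List.append_assoc _ _ _
  · refine ⟨l₁ ++ m₁, m₂, ?_, by simp [h1], by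
      rw [List.length_append]; unfold bound; omega, ?_, ?_⟩
    · refine hp.trans ?_
      calc (l₁ ++ l₂).Perm (l₁ ++ (m₁ ++ m₂)) := List.Perm.append_left _ hq
        _ = (l₁ ++ m₁) ++ m₂ := (List.append_assoc _ _ _).symm
    · intro j
      rw [List.map_append, List.sum_append, h3 j, g3 j, add_zero]
    · rw [List.map_append, List.sum_append]
      exact Odd.add_odd (Nat.not_even_iff_odd.1 he) (Nat.not_even_iff_odd.1 he')

end Pool.Agent.Q68.FD
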