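import Pool.Agent.H485R3.RelSplit
import Pool.Agent.Q68.FD.Defs

/-!
# Weil numbers with bounded denominators of the slopes, and vectors of slopes
-/

set_option autoImplicit false

open Polynomial Pool.Agent.H485R3

namespace Pool.Agent.Q68.FD

section

variable {p e D : ℕ} [hp : Fact p.Prime] {L : Type*} [Field L] [Algebra ℚ L]

lemma eval₂_hom {R S : Type*} [CommRing R] [CommRing S] (f : R →+* S) (x : R) (P : ℤ[X]) :
    eval₂ (Int.castRingHom S) (f x) P = f (eval₂ (Int.castRingHom R) x P) := by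
  rw [hom_eval₂]
  congr 1
  exact RingHom.ext_int _ _

lemma norm_q (n : ℕ) : ‖((p : PadicAlgCl p) ^ n)‖ = ((p : ℝ) ^ n)⁻¹ := by
  have h1 : (p : PadicAlgCl p) ^ n = algebraMap ℚ_[p] (PadicAlgCl p) ((p : ℚ_[p]) ^ n) := by
    simp
  rw [h1, PadicAlgCl.norm_extends, norm_pow, Padic.norm_p, inv_pow]

lemma one_lt_q (he : 0 < e) : (1 : ℝ) < (p : ℝ) ^ e :=
  one_lt_pow₀ (by exact_mod_cast hp.1.one_lt) he.ne'

lemma isIntegral_root {R : Type*} [CommRing R] {P : ℤ[X]} (hP : P.Monic) {x : R}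
    (hx : eval₂ (Int.castRingHom R) x P = 0) : IsIntegral ℤ x := by
  refine ⟨P, hP, ?_⟩
  rw [← hx]
  congr 1

/-- The slopes. -/
lemma exists_slope (he : 0 < e) {i : ℕ} {P : ℤ[X]} (hP : IsWeilPoly p e D i P) {x : L}
    (hx : eval₂ (Int.castRingHom L) x P = 0) (τ : L →ₐ[ℚ] ℂ) (ψ : L →ₐ[ℚ] PadicAlgCl p) :
    ∃ m : ℕ, ‖ψ x‖ ^ D * ((p : ℝ) ^ e) ^ m = 1 ∧ m ≤ D * i := by
  obtain ⟨m, hm⟩ := hP.slope (ψ x) (by
    rw [show ψ x = (ψ : L →+* PadicAlgCl p) x from rfl, eval₂_hom, hx, map_zero])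
  refine ⟨m, hm, ?_⟩
  have hq := one_lt_q (p := p) he
  have hq0 : (0 : ℝ) < (p : ℝ) ^ e := zero_lt_one.trans hq
  have hp0 : (p : ℂ) ≠ 0 := Nat.cast_ne_zero.2 hp.1.ne_zero
  have hτx : eval₂ (Int.castRingHom ℂ) (τ x) P = 0 := by
    rw [show τ x = (τ : L →+* ℂ) x from rfl, eval₂_hom, hx, map_zero]
  have hτn := hP.weil _ hτx
  have hτ0 : τ x ≠ 0 := by
    intro h
    rw [h, norm_zero, zero_pow two_ne_zero] at hτn
    exact (pow_pos hq0 i).ne hτn
  have hx0 : x ≠ 0 := fun h => hτ0 (by rw [h, map_zero])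
  -- the conjugate
  have hconj : eval₂ (Int.castRingHom ℂ) (starRingEnd ℂ (τ x)) P = 0 := by
    rw [eval₂_hom, hτx, map_zero]
  have hc : starRingEnd ℂ (τ x) = τ (((p : L) ^ e) ^ i / x) := by
    rw [map_div₀, map_pow, map_pow, map_natCast, eq_div_iff hτ0, mul_comm, Complex.mul_conj,
      Complex.normSq_eq_norm_sq, hτn]
    push_cast
    rfl
  have hy : eval₂ (Int.castRingHom L) (((p : L) ^ e) ^ i / x) P = 0 := by
    apply τ.toRingHom.injective
    rw [map_zero, ← eval₂_hom]
    change eval₂ (Int.castRingHom ℂ) (τ (((p : L) ^ e) ^ i / x)) P = 0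
    rw [← hc]
    exact hconj
  have h1 : ‖ψ (((p : L) ^ e) ^ i / x)‖ ≤ 1 :=
    norm_le_one_of_isIntegral p _ ((isIntegral_root hP.monic hy).map (ψ.restrictScalars ℤ))
  rw [map_div₀, map_pow, map_pow, map_natCast, norm_div, ← pow_mul, norm_q, pow_mul] at h1
  have hψ0 : 0 < ‖ψ x‖ := norm_pos_iff.2 ((map_ne_zero ψ).2 hx0)
  rw [div_le_one hψ0] at h1
  have h2 : (((p : ℝ) ^ e) ^ i)⁻¹ ^ D * ((p : ℝ) ^ e) ^ m ≤ 1 := by
    rw [← hm]
    exact mul_le_mul_of_nonneg_right (pow_le_pow_left₀ (by positivity) h1 D) (by positivity)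
  rw [inv_pow, ← pow_mul, inv_mul_le_iff₀ (by positivity), mul_one] at h2
  have h3 := (pow_le_pow_iff_right₀ hq).1 h2
  rwa [mul_comm] at h3

end

section

variable {p e D : ℕ} [hp : Fact p.Prime] {L : Type*} [Field L] [Algebra ℚ L]
  [FiniteDimensional ℚ L] [Normal ℚ L]

lemma list_norm {F : Type*} [NormedField F] {β : Type*} (f : β → F) (l : List β) :
    ‖(l.map f).prod‖ = (l.map fun x => ‖f x‖).prod := by
  induction l with
  | nil => simp
  | cons a l ih => rw [List.map_cons, List.prod_cons, norm_mul, ih, List.map_cons, List.prod_cons]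

lemma list_slope {q : ℝ} (hq : 0 < q) {β : Type*} (a : β → ℝ) (m : β → ℕ) (l : List β)
    (h : ∀ x ∈ l, a x ^ D * q ^ m x = 1) :
    (l.map a).prod ^ D * q ^ (l.map m).sum = 1 := by
  induction l with
  | nil => simp
  | cons b l ih =>
    rw [List.map_cons, List.prod_cons, List.map_cons, List.sum_cons, mul_pow, pow_add]
    have h1 := h b List.mem_cons_self
    have h2 := ih fun x hx => h x (List.mem_cons_of_mem _ hx)
    calc a b ^ D * (l.map a).prod ^ D * (q ^ m b * q ^ (l.map m).sum)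
        = (a b ^ D * q ^ m b) * ((l.map a).prod ^ D * q ^ (l.map m).sum) := by ring
      _ = 1 := by rw [h1, h2, one_mul]

/-- Lists of Weil numbers whose slopes have the right sums. -/
lemma rel_of_zero (he : 0 < e) (hD : 0 < D) {β : Type*} (x : β → L) (w : β → ℕ) (P : β → ℤ[X])
    (hP : ∀ i, IsWeilPoly p e D (w i) (P i)) (hx : ∀ i, eval₂ (Int.castRingHom L) (x i) (P i) = 0)
    (m : β → (L →ₐ[ℚ] PadicAlgCl p) → ℕ)
    (hm : ∀ i ψ, ‖ψ (x i)‖ ^ D * ((p : ℝ) ^ e) ^ m i ψ = 1) (l : List β) {j : ℕ}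
    (hj : (l.map w).sum = 2 * j) (h : ∀ ψ, (l.map fun i => m i ψ).sum = D * j) :
    ∃ t, 0 < t ∧ (l.map x).prod ^ t = (((p : L) ^ e) ^ j) ^ t := by
  have hq := one_lt_q (p := p) he
  have hq0 : (0 : ℝ) < (p : ℝ) ^ e := zero_lt_one.trans hq
  have hpL : ((p : L) ^ e) ^ j ≠ 0 := by
    have : CharZero L := algebraRat.charZero L
    exact pow_ne_zero _ (pow_ne_zero _ (Nat.cast_ne_zero.2 hp.1.ne_zero))
  have hintx : IsIntegral ℤ (l.map x).prod := by
    clear hj h
    induction l with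
    | nil => simpa using isIntegral_one
    | cons i l ih =>
      rw [List.map_cons, List.prod_cons]
      exact (isIntegral_root (hP i).monic (hx i)).mul ih
  set z : L := (l.map x).prod / ((p : L) ^ e) ^ j with hz
  have hzi : IsIntegral ℤ z := by
    apply isIntegral_of_norm_le
    intro r hr ψ
    by_cases hrp : r = p
    · subst hrp
      have h1 : ‖ψ (l.map x).prod‖ ^ D * ((r : ℝ) ^ e) ^ (D * j) = 1 := by
        rw [map_list_prod, List.map_map, list_norm, ← h ψ]
        exact list_slope hq0 _ _ l fun i _ => hm i ψ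
      have h2 : ‖ψ z‖ ^ D = 1 := by
        rw [hz, map_div₀, map_pow, map_pow, map_natCast, norm_div, ← pow_mul, norm_q, pow_mul,
          div_inv_eq_mul, mul_pow, ← pow_mul, mul_comm j D]
        exact h1
      exact (pow_le_one_iff_of_nonneg (norm_nonneg _) hD.ne').1 h2.le
    · rw [hz, map_div₀, map_pow, map_pow, map_natCast, norm_div, ← pow_mul,
        norm_prime_pow_ne r p hp.1 hrp, div_one]
      exact norm_le_one_of_isIntegral r _ (hintx.map (ψ.restrictScalars ℤ))
  have hz1 : ∀ φ : L →ₐ[ℚ] ℂ, ‖φ z‖ = 1 := by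
    intro φ
    have h1 : ‖φ (l.map x).prod‖ ^ 2 = (((p : ℝ) ^ e) ^ j) ^ 2 := by
      rw [map_list_prod, List.map_map, list_norm, ← pow_mul, mul_comm j 2, ← hj]
      clear_value z
      clear hintx hz hzi hj h hpL
      induction l with
      | nil => simp
      | cons b l ih =>
        rw [List.map_cons, List.prod_cons, List.map_cons, List.sum_cons, mul_pow, pow_add, ih]
        congr 1
        refine (hP b).weil _ ?_
        change eval₂ (Int.castRingHom ℂ) ((φ : L →+* ℂ) (x b)) (P b) = 0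
        rw [eval₂_hom, hx, map_zero]
    have h2 : ‖φ (l.map x).prod‖ = ((p : ℝ) ^ e) ^ j :=
      (pow_left_inj₀ (norm_nonneg _) (by positivity) two_ne_zero).1 h1
    rw [hz, map_div₀, norm_div, h2, map_pow, map_pow, map_natCast, norm_pow, norm_pow,
      Complex.norm_natCast]
    exact div_self (by positivity)
  obtain ⟨t, ht, h1⟩ := pow_eq_one_of_norm z hzi hz1
  refine ⟨t, ht, ?_⟩
  rw [hz, div_pow, div_eq_one_iff_eq (pow_ne_zero _ hpL)] at h1
  exact h1

lemma zero_of_rel (he : 0 < e) {β : Type*} (x : β → L)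
    (m : β → (L →ₐ[ℚ] PadicAlgCl p) → ℕ)
    (hm : ∀ i ψ, ‖ψ (x i)‖ ^ D * ((p : ℝ) ^ e) ^ m i ψ = 1) (l : List β) {j t : ℕ} (ht : 0 < t)
    (h : (l.map x).prod ^ t = (((p : L) ^ e) ^ j) ^ t) (ψ : L →ₐ[ℚ] PadicAlgCl p) :
    (l.map fun i => m i ψ).sum = D * j := by
  have hq := one_lt_q (p := p) he
  have hq0 : (0 : ℝ) < (p : ℝ) ^ e := zero_lt_one.trans hq
  have h1 : ‖ψ (l.map x).prod‖ ^ D * ((p : ℝ) ^ e) ^ (l.map fun i => m i ψ).sum = 1 := by
    rw [map_list_prod, List.map_map, list_norm]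
    exact list_slope hq0 _ _ l fun i _ => hm i ψ
  have h2 : ‖ψ (l.map x).prod‖ = (((p : ℝ) ^ e) ^ j)⁻¹ := by
    have h3 := congrArg (fun y => ‖ψ y‖) h
    simp only [map_pow, norm_pow] at h3
    have h4 := (pow_left_inj₀ (norm_nonneg _) (by positivity) ht.ne').1 h3
    rw [h4, map_natCast, ← norm_pow, norm_q, inv_pow]
  rw [h2, inv_pow, ← pow_mul, inv_mul_eq_one₀ (by positivity)] at h1
  have h3 := (pow_right_injective₀ hq0 hq.ne') h1
  rw [← h3, mul_comm]

end

/-! ### Reduction of the number of coordinates -/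

/-- Finitely many integral vectors, in any number of coordinates: there are few coordinates such that
all sums of these vectors that vanish in these coordinates vanish. -/
lemma exists_coords {ι : Type*} [Finite ι] {Ψ : Type*} {b : ℕ} (hb : Nat.card ι ≤ b) {a : ℤ}
    (ha : 0 ≤ a) (u : ι → Ψ → ℤ) (hu : ∀ i ψ, |u i ψ| ≤ a) :
    ∃ u' : ι → Fin b → ℤ, (∀ i k, |u' i k| ≤ a) ∧ ∀ l : List ι,
      (∀ k, (l.map fun i => u' i k).sum = 0) ↔ ∀ ψ, (l.map fun i => u i ψ).sum = 0 := by
  classical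
  have : Fintype ι := Fintype.ofFinite ι
  let φ : Ψ → ((ι → ℚ) →ₗ[ℚ] ℚ) := fun ψ =>
    ∑ i, (u i ψ : ℚ) • LinearMap.proj i
  let c : List ι → (ι → ℚ) := fun l => (l.map fun i => Pi.single i (1 : ℚ)).sum
  have hφ : ∀ ψ l, φ ψ (c l) = ((l.map fun i => u i ψ).sum : ℤ) := by
    intro ψ l
    induction l with
    | nil => simp [c]
    | cons i l ih =>
      have h1 : c (i :: l) = Pi.single i 1 + c l := by simp [c]
      rw [h1, map_add, ih, List.map_cons, List.sum_cons, Int.cast_add]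
      congr 1
      simp only [φ, LinearMap.sum_apply, LinearMap.smul_apply, LinearMap.proj_apply, smul_eq_mul]
      rw [Finset.sum_eq_single i]
      · simp
      · intro k _ hk
        rw [Pi.single_eq_of_ne hk, mul_zero]
      · intro h
        exact absurd (Finset.mem_univ i) h
  obtain ⟨B, hB, hspan, hlin⟩ := exists_linearIndependent ℚ (Set.range φ)
  have hfin : Finite B := hlin.finite
  have : Fintype B := Fintype.ofFinite B
  have hcard : Fintype.card B ≤ b := by
    have h1 := hlin.fintype_card_le_finrank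
    rw [Module.finrank_linearMap, Module.finrank_fintype_fun_eq_card, Module.finrank_self,
      mul_one] at h1
    rw [Nat.card_eq_fintype_card] at hb
    exact h1.trans hb
  choose g hg using fun y : B => hB y.2
  let E : B ↪ Fin b := (Fintype.equivFin B).toEmbedding.trans (Fin.castLEEmb hcard)
  refine ⟨fun i k => if h : ∃ y, E y = k then u i (g h.choose) else 0, ?_, ?_⟩
  · intro i k
    by_cases hk : ∃ y, E y = k
    · simp only [dif_pos hk]
      exact hu _ _
    · simp only [dif_neg hk]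
      simpa using ha
  · intro l
    constructor
    · intro h ψ
      have h1 : ∀ y : B, φ (g y) (c l) = 0 := by
        intro y
        have h2 := h (E y)
        have h3 : ∃ y', E y' = E y := ⟨y, rfl⟩
        have h4 : h3.choose = y := E.injective h3.choose_spec
        simp only [dif_pos h3, h4] at h2
        rw [hφ, h2, Int.cast_zero]
      have h5 : ∀ f ∈ Submodule.span ℚ B, f (c l) = 0 := by
        intro f hf
        induction hf using Submodule.span_induction with
        | mem f hf =>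
          have := h1 ⟨f, hf⟩
          rwa [hg] at this
        | zero => rfl
        | add f g _ _ h1 h2 => rw [LinearMap.add_apply, h1, h2, add_zero]
        | smul a f _ h1 => rw [LinearMap.smul_apply, h1, smul_zero]
      have h6 := h5 (φ ψ) (by
        rw [hspan]
        exact Submodule.subset_span ⟨ψ, rfl⟩)
      rw [hφ] at h6
      exact_mod_cast h6
    · intro h k
      by_cases hk : ∃ y, E y = k
      · simp only [dif_pos hk]
        exact h _
      · simp only [dif_neg hk]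
        simp

/-- **Vectors of slopes.** -/
theorem exists_vectors {p e D : ℕ} [hp : Fact p.Prime] (he : 0 < e) (hD : 0 < D) {K : Type*} [Field K]
    [CharZero K] [IsAlgClosed K] {ι : Type*} [Finite ι] {b wmax : ℕ} (hb : Nat.card ι ≤ b)
    (α : ι → K) (w : ι → ℕ) (P : ι → ℤ[X]) (hw : ∀ i, w i ≤ wmax)
    (hP : ∀ i, IsWeilPoly p e D (w i) (P i))
    (hα : ∀ i, eval₂ (Int.castRingHom K) (α i) (P i) = 0) :
    ∃ u : ι → Fin b → ℤ, (∀ i k, |u i k| ≤ ((D * wmax : ℕ) : ℤ)) ∧ ∀ (l : List ι) (j : ℕ),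
      (l.map w).sum = 2 * j → ((∀ k, (l.map fun i => u i k).sum = 0) ↔
        ∃ t, 0 < t ∧ (l.map α).prod ^ t = (((p : K) ^ e) ^ j) ^ t) := by
  classical
  have : Fintype ι := Fintype.ofFinite ι
  obtain ⟨L, _, _, hfd, hgal, hsp⟩ := exists_splitting
    (fun i => (P i).map (Int.castRingHom ℚ)) (fun i => by
      exact ((hP i).monic.map _).ne_zero)
  let algK : Algebra ℚ K := DivisionRing.toRatAlgebra
  let θ : L →ₐ[ℚ] K := IsAlgClosed.lift
  have hx : ∀ i, ∃ x : L, eval₂ (Int.castRingHom L) x (P i) = 0 ∧ θ x = α i := by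
    intro i
    obtain ⟨x, h1, h2⟩ := exists_root_lift ((hP i).monic.map (Int.castRingHom ℚ)).ne_zero (hsp i) θ
      (α i) (by
        rw [aeval_def, eval₂_map, ← hα i]
        congr 1
        exact RingHom.ext_int _ _)
    refine ⟨x, ?_, h2⟩
    rw [aeval_def, eval₂_map] at h1
    rw [← h1]
    congr 1
    exact RingHom.ext_int _ _
  choose x hx1 hx2 using hx
  let τ : L →ₐ[ℚ] ℂ := IsAlgClosed.lift
  choose m hm1 hm2 using fun (i : ι) (ψ : L →ₐ[ℚ] PadicAlgCl p) =>
    exists_slope he (hP i) (hx1 i) τ ψ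
  obtain ⟨u', hu', hzero⟩ := exists_coords hb (a := ((D * wmax : ℕ) : ℤ)) (Int.natCast_nonneg _)
    (fun i ψ => 2 * (m i ψ : ℤ) - (D * w i : ℕ)) (fun i ψ => by
      have h1 := hm2 i ψ
      have h2 : D * w i ≤ D * wmax := Nat.mul_le_mul_left _ (hw i)
      rw [abs_le]
      constructor <;> omega)
  refine ⟨u', hu', fun l j hj => ?_⟩
  rw [hzero]
  have key : ∀ ψ, (l.map fun i => 2 * (m i ψ : ℤ) - (D * w i : ℕ)).sum =
      2 * (((l.map fun i => m i ψ).sum : ℕ) : ℤ) - (D * (l.map w).sum : ℕ) := by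
    intro ψ
    clear hj
    induction l with
    | nil => simp
    | cons a l ih =>
      rw [List.map_cons, List.sum_cons, ih, List.map_cons, List.sum_cons, List.map_cons,
        List.sum_cons]
      push_cast
      ring
  have hmap : ∀ t, (l.map α).prod ^ t = (((p : K) ^ e) ^ j) ^ t ↔
      (l.map x).prod ^ t = (((p : L) ^ e) ^ j) ^ t := by
    intro t
    have h1 : (l.map α).prod = θ (l.map x).prod := by
      rw [map_list_prod, List.map_map]
      congr 1
      apply List.map_congr_left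
      intro i _
      exact (hx2 i).symm
    have h2 : ((p : K) ^ e) ^ j = θ (((p : L) ^ e) ^ j) := by
      rw [map_pow, map_pow, map_natCast]
    rw [h1, h2, ← map_pow, ← map_pow]
    exact θ.injective.eq_iff
  constructor
  · intro h
    obtain ⟨t, ht, h1⟩ := rel_of_zero he hD x w P hP hx1 m hm1 l hj (fun ψ => by
      have h2 := h ψ
      rw [key, hj] at h2
      have h3 : D * (2 * j) = 2 * (D * j) := by ring
      omega)
    exact ⟨t, ht, (hmap t).2 h1⟩
  · rintro ⟨t, ht, h⟩ ψ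
    have h1 := zero_of_rel he x m hm1 l ht ((hmap t).1 h) ψ
    rw [key, h1, hj]
    push_cast
    ring

end Pool.Agent.Q68.FD
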