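import Pool.Agent.Q68.FD.Comb
import Pool.Agent.Q68.FD.Slope
import Pool.Agent.Y163.TateC
import Pool.Agent.Y133.Half.TateSys

/-!
# Generation of the Tate classes on powers by short ones
-/

set_option linter.unusedVariables false
set_option linter.unusedSectionVars false

open CategoryTheory AlgebraicGeometry

universe u v

namespace Pool.Agent.Q68.FD

open Polynomial Pool.Agent.H914 Pool.Agent.W534 VarClass Obj WeilCohomology Pool.Agent.Y163 Module

section Lin

variable {K V V' : Type*} [Field K] [AddCommGroup V] [Module K V] [AddCommGroup V'] [Module K V']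

/-- The coordinates of an element of one of the members of an independent family of subspaces with
respect to an adapted basis. -/
lemma repr_eq_zero {κ : Type*} {S : κ → Submodule K V} (hS : iSupIndep S) {ι : Type*}
    [Finite ι] (e : Basis ι K V) (k : ι → κ) (he : ∀ i, e i ∈ S (k i)) {k₀ : κ} {c : V}
    (hc : c ∈ S k₀) {i : ι} (hi : k i ≠ k₀) : e.repr c i = 0 := by
  classical
  have : Fintype ι := Fintype.ofFinite ι
  set c₁ := ∑ i ∈ Finset.univ.filter (fun i => k i = k₀), e.repr c i • e i with hc₁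
  set c₂ := ∑ i ∈ Finset.univ.filter (fun i => ¬ k i = k₀), e.repr c i • e i with hc₂
  have h1 : c₁ + c₂ = c := by
    rw [hc₁, hc₂, Finset.sum_filter_add_sum_filter_not, e.sum_repr]
  have h2 : c₁ ∈ S k₀ := by
    refine Submodule.sum_mem _ fun i hi => Submodule.smul_mem _ _ ?_
    have := he i
    rwa [(Finset.mem_filter.1 hi).2] at this
  have h3 : c₂ ∈ ⨆ j, ⨆ (_ : j ≠ k₀), S j := by
    refine Submodule.sum_mem _ fun i hi => Submodule.smul_mem _ _ ?_
    exact Submodule.mem_iSup_of_mem (k i)
      (Submodule.mem_iSup_of_mem (Finset.mem_filter.1 hi).2 (he i))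
  have h4 : c₂ ∈ S k₀ := by
    have : c₂ = c - c₁ := by rw [← h1]; abel
    rw [this]
    exact Submodule.sub_mem _ hc h2
  have h5 : c₂ = 0 := Submodule.disjoint_def.1 (hS k₀) c₂ h4 h3
  exact linearIndependent_iff'.1 e.linearIndependent _ _ h5 i
    (Finset.mem_filter.2 ⟨Finset.mem_univ i, hi⟩)

lemma gen_intertwine {g : Module.End K V} {f : Module.End K V'} {θ : V →ₗ[K] V'}
    (h : ∀ x, θ (g x) = f (θ x)) {μ : K} {x : V} (hx : x ∈ g.maxGenEigenspace μ) :
    θ x ∈ f.maxGenEigenspace μ := by
  rw [Module.End.mem_maxGenEigenspace] at hx ⊢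
  obtain ⟨n, hn⟩ := hx
  refine ⟨n, ?_⟩
  have key : ∀ (n : ℕ) (x : V), ((f - μ • 1) ^ n) (θ x) = θ (((g - μ • 1) ^ n) x) := by
    intro n
    induction n with
    | zero => intro x; simp
    | succ n ih =>
      intro x
      rw [pow_succ, Module.End.mul_apply, pow_succ, Module.End.mul_apply, ← ih]
      congr 1
      simp [h]
  rw [key, hn, map_zero]

/-- A basis of generalised eigenvectors. -/
lemma exists_genbasis [IsAlgClosed K] [FiniteDimensional K V] (f : Module.End K V) :
    ∃ (b : Set V) (e : Basis b K V) (μ : b → K), (∀ i, e i ∈ f.maxGenEigenspace (μ i)) ∧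
      ∀ i, f.charpoly.IsRoot (μ i) := by
  obtain ⟨b, hb, hspan, hlin⟩ := exists_linearIndependent K (⋃ μ, (f.maxGenEigenspace μ : Set V))
  have htop : Submodule.span K b = ⊤ := by
    rw [hspan, Submodule.span_iUnion]
    simp only [Submodule.span_eq]
    exact Module.End.iSup_maxGenEigenspace_eq_top f
  have hlin' : LinearIndependent K (fun i : b => (i : V)) := hlin
  let e : Basis b K V := Basis.mk hlin' (by
    rw [Subtype.range_coe_subtype, Set.setOf_mem_eq, htop])
  have he : ∀ i : b, e i = i := fun i => Basis.mk_apply _ _ _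
  choose μ hμ using fun i : b => Set.mem_iUnion.1 (hb i.2)
  refine ⟨b, e, μ, fun i => by rw [he]; exact hμ i, fun i => ?_⟩
  rw [← Module.End.hasEigenvalue_iff_isRoot_charpoly]
  have h1 : (i : V) ≠ 0 := hlin'.ne_zero i
  obtain ⟨n, hn⟩ := (Module.End.mem_maxGenEigenspace _ _ _).1 (hμ i)
  by_contra hcon
  have hinj : Function.Injective (f - μ i • (1 : Module.End K V)) := by
    rw [← LinearMap.ker_eq_bot]
    by_contra hk
    apply hcon
    rw [Module.End.hasEigenvalue_iff, Module.End.eigenspace_def]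
    exact hk
  have h2 : Function.Injective ((f - μ i • (1 : Module.End K V)) ^ n) := by
    rw [Module.End.coe_pow]
    exact hinj.iterate n
  exact h1 (h2 (by rw [hn, map_zero]))

end Lin

variable {k : Type u} [Field k] {𝒱 : VarClass k} {ops : CycleOps 𝒱}
  {W : WeilCohomology.{u, v} ops} {X Y Z : 𝒱.Obj} {p : ℕ} {Φ : FrobSystem W p}

/-- Compatibility of the Frobenius endomorphisms with finitely many morphisms. -/
lemma frob_comm_fin : ∀ {m : ℕ} (f : Fin m → (Z ⟶ X)), ∃ a b, 0 < a ∧ 0 < b ∧
    a * Φ.e Z = b * Φ.e X ∧ ∀ i (t : ℕ) (y : W.H X),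
      W.map (W534.iter (Φ.Fr Z) (a * t)) (W.map (f i) y) =
        W.map (f i) (W.map (W534.iter (Φ.Fr X) (b * t)) y)
  | 0, f => ⟨Φ.e X, Φ.e Z, Φ.e_pos X, Φ.e_pos Z, mul_comm _ _, fun i => i.elim0⟩
  | m + 1, f => by
    obtain ⟨a, b, ha, hb, hab, h⟩ := frob_comm_fin (fun i : Fin m => f i.succ)
    obtain ⟨a₀, b₀, ha₀, hb₀, hab₀, h₀⟩ := frob_comm (W := W) Φ (f 0)
    have hbb : b * a₀ = b₀ * a := by
      apply Nat.eq_of_mul_eq_mul_right (Φ.e_pos X)
      calc b * a₀ * Φ.e X = (b * Φ.e X) * a₀ := by ring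
        _ = a * (a₀ * Φ.e Z) := by rw [← hab]; ring
        _ = b₀ * a * Φ.e X := by rw [hab₀]; ring
    refine ⟨a * a₀, b * a₀, Nat.mul_pos ha ha₀, Nat.mul_pos hb ha₀, ?_, fun i => ?_⟩
    · calc a * a₀ * Φ.e Z = (a * Φ.e Z) * a₀ := by ring
        _ = b * a₀ * Φ.e X := by rw [hab]; ring
    · refine Fin.cases ?_ (fun i => ?_) i
      · intro t y
        have := h₀ (a * t) y
        rw [hbb, show a * a₀ * t = a₀ * (a * t) by ring, show b₀ * a * t = b₀ * (a * t) by ring]
        exact this
      · intro t y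
        have := h i (a₀ * t) y
        rw [mul_assoc, mul_assoc]
        exact this

lemma frob_eq_pow (n : ℕ) : frob Φ X n = (W.map (Φ.Fr X)).toLinearMap ^ n := by
  have h1 : frob Φ X 1 = (W.map (Φ.Fr X)).toLinearMap := by
    apply LinearMap.ext
    intro x
    rw [frob_apply, W534.map_iter, Function.iterate_one]
    rfl
  have h2 := frob_mul_eq Φ (Z := X) 1 n
  rw [one_mul, h1] at h2
  exact h2

/-- The eigenvalue of the product of pull-backs of generalised eigenvectors. -/
lemma gen_prod {F : Module.End W.K (W.H Z)} (hF : ∀ x y, F (x * y) = F x * F y) (h1 : F 1 = 1)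
    {β : Type*} (y : β → W.H Z) (μ : β → W.K) (l : List β)
    (h : ∀ i ∈ l, y i ∈ F.maxGenEigenspace (μ i)) :
    (l.map y).prod ∈ F.maxGenEigenspace (l.map μ).prod := by
  induction l with
  | nil =>
    rw [List.map_nil, List.map_nil, List.prod_nil, List.prod_nil]
    rw [Module.End.mem_maxGenEigenspace]
    refine ⟨1, ?_⟩
    rw [pow_one, LinearMap.sub_apply, LinearMap.smul_apply, Module.End.one_apply, h1, one_smul,
      sub_self]
  | cons i l ih =>
    rw [List.map_cons, List.map_cons, List.prod_cons, List.prod_cons]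
    exact Pool.Agent.Y133.Half.gen_bilin (β := LinearMap.mul W.K (W.H Z))
      (fun a b => (hF a b).symm) (h i List.mem_cons_self)
      (ih fun j hj => h j (List.mem_cons_of_mem _ hj))

lemma gr_prod {β : Type*} (y : β → W.H Z) (d : β → ℕ) (l : List β)
    (h : ∀ i ∈ l, y i ∈ W.gr Z (d i)) : (l.map y).prod ∈ W.gr Z (l.map d).sum := by
  induction l with
  | nil => simpa using W.one_mem Z
  | cons i l ih =>
    rw [List.map_cons, List.map_cons, List.prod_cons, List.sum_cons]
    exact W.mul_mem (h i List.mem_cons_self) (ih fun j hj => h j (List.mem_cons_of_mem _ hj))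

/-- The data of a basis of the cohomology consisting of homogeneous generalised eigenvectors. -/
structure EBasis (Φ : FrobSystem W p) [Fact p.Prime] (X : 𝒱.Obj) (D : ℕ) (ι : Type v) where
  /-- the basis -/
  B : HBasis W X ι
  /-- the eigenvalues -/
  α : ι → W.K
  /-- the polynomials -/
  P : ι → ℤ[X]
  mem : ∀ i, B.b i ∈ Module.End.maxGenEigenspace (W.map (Φ.Fr X)).toLinearMap (α i)
  weil : ∀ i, IsWeilPoly p (Φ.e X) D (B.deg i) (P i)
  root : ∀ i, eval₂ (Int.castRingHom W.K) (α i) (P i) = 0

lemma exists_ebasis [IsAlgClosed W.K] [Fact p.Prime] {D : ℕ} (h : HasWeilPolys Φ X D) :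
    ∃ (ι : Type v) (_ : Finite ι), Nonempty (EBasis Φ X D ι) := by
  classical
  choose P hP1 hP2 using h
  set f : Module.End W.K (W.H X) := (W.map (Φ.Fr X)).toLinearMap with hf
  have hgr : ∀ i, ∀ x ∈ W.gr X i, f x ∈ W.gr X i := fun i x hx => W.map_mem _ hx
  choose b e μ hμ hroot using fun i => exists_genbasis (f.restrict (hgr i))
  let bb := (W.isInternal X).collectedBasis e
  have hfin : Finite (Σ i, b i) := Module.Finite.finite_basis bb
  have hb : ∀ x : Σ i, b i, bb x = (e x.1 x.2 : W.H X) := fun x => by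
    have := (W.isInternal X).collectedBasis_coe e
    exact congrFun this x
  refine ⟨Σ i, b i, hfin, ⟨⟨⟨bb, Sigma.fst, fun x => ?_⟩, fun x => μ x.1 x.2, fun x => P x.1,
    fun x => ?_, fun x => hP1 x.1, fun x => ?_⟩⟩⟩
  · exact (W.isInternal X).collectedBasis_mem e x
  · change bb x ∈ _
    rw [hb]
    have h1 := hμ x.1 x.2
    exact gen_intertwine (θ := (W.gr X x.1).subtype) (fun y => rfl) h1
  · have h1 := hroot x.1 x.2
    have h2 := hP2 x.1
    rw [charpolyOn, dif_pos (hgr x.1)] at h2
    rw [h2, IsRoot.def, Polynomial.eval_map] at h1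
    exact h1

section Main

variable [hp : Fact p.Prime] {D : ℕ} {ι : Type v} (E : EBasis Φ X D ι)

/-- The monomial of a list of factors is a generalised eigenvector. -/
lemma mono_gen {n : ℕ} (g : Fin n → (Z ⟶ X)) (I : Fin n → ι) (l : List (Fin n)) :
    ∃ a b, 0 < a ∧ 0 < b ∧ a * Φ.e Z = b * Φ.e X ∧ ∀ t,
      (l.map fun i => W.map (g i) (E.B.b (I i))).prod ∈
        (frob Φ Z (a * t)).maxGenEigenspace ((l.map fun i => E.α (I i)).prod ^ (b * t)) := by
  obtain ⟨a, b, ha, hb, hab, h⟩ := frob_comm_fin (Φ := Φ) g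
  refine ⟨a, b, ha, hb, hab, fun t => ?_⟩
  have h1 : (l.map fun i => E.α (I i)).prod ^ (b * t) =
      (l.map fun i => E.α (I i) ^ (b * t)).prod := by
    induction l with
    | nil => simp
    | cons i l ih => rw [List.map_cons, List.prod_cons, mul_pow, ih, List.map_cons, List.prod_cons]
  rw [h1]
  apply gen_prod
  · intro x y
    rw [frob_apply, map_mul]
    rfl
  · rw [frob_apply, map_one]
  · intro i _
    have h2 : E.B.b (I i) ∈ (frob Φ X (b * t)).maxGenEigenspace (E.α (I i) ^ (b * t)) := by
      rw [frob_eq_pow]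
      exact gen_mono _ _ _ (E.mem (I i))
    exact gen_intertwine (θ := (W.map (g i)).toLinearMap) (fun y => (h i t y).symm) h2

lemma mono_gr {n : ℕ} (g : Fin n → (Z ⟶ X)) (I : Fin n → ι) (l : List (Fin n)) :
    (l.map fun i => W.map (g i) (E.B.b (I i))).prod ∈
      W.gr Z (l.map fun i => E.B.deg (I i)).sum :=
  gr_prod _ _ l fun i _ => W.map_mem _ (E.B.mem _)

lemma card_cast (s : ℕ) : (card Φ Z s : W.K) = (p : W.K) ^ (Φ.e Z * s) := by
  rw [card, Nat.cast_pow]

variable {b : ℕ} (u : ι → Fin b → ℤ) {A : ℕ} (hu : ∀ i k, |u i k| ≤ (A : ℤ))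
  (hrel : ∀ (l : List ι) (j : ℕ), (l.map E.B.deg).sum = 2 * j →
    ((∀ k, (l.map fun i => u i k).sum = 0) ↔
      ∃ t, 0 < t ∧ (l.map E.α).prod ^ t = (((p : W.K) ^ Φ.e X) ^ j) ^ t))

include hrel in
/-- The monomials with the right vectors of slopes are generalised Tate classes. -/
lemma mono_tate {n : ℕ} (g : Fin n → (Z ⟶ X)) (I : Fin n → ι) (l : List (Fin n))
    (hz : ∀ k, (l.map fun i => u (I i) k).sum = 0)
    (he : Even (l.map fun i => E.B.deg (I i)).sum) :
    ∃ s j, 0 < s ∧ (l.map fun i => W.map (g i) (E.B.b (I i))).prod ∈ genTate Φ Z s j := by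
  obtain ⟨j, hj⟩ := he
  rw [← two_mul] at hj
  obtain ⟨t, ht, h1⟩ := (hrel (l.map I) j (by rw [List.map_map]; exact hj)).1 (fun k => by
    rw [List.map_map]; exact hz k)
  rw [List.map_map] at h1
  obtain ⟨a, c, ha, hc, hac, h2⟩ := mono_gen E g I l
  refine ⟨a * t, j, Nat.mul_pos ha ht, ?_, ?_⟩
  · have h3 := h2 t
    have h4 : (l.map fun i => E.α (I i)).prod ^ (c * t) = (card Φ Z (a * t) : W.K) ^ j := by
      have h5 : (l.map (E.α ∘ I)).prod ^ (c * t) = ((((p : W.K) ^ Φ.e X) ^ j) ^ t) ^ c := by
        rw [mul_comm c t, pow_mul, h1]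
      refine h5.trans ?_
      rw [card_cast, ← pow_mul, ← pow_mul, ← pow_mul, ← pow_mul]
      congr 1
      calc _ = (c * Φ.e X) * (t * j) := by ring
        _ = Φ.e Z * (a * t) * j := by rw [← hac]; ring
    rw [h4] at h3
    exact h3
  · have h3 := mono_gr E g I l
    rwa [hj] at h3

include hu hrel in
/-- Monomials with the right vectors of slopes are products of short ones. -/
lemma mono_mem_adjoin {n : ℕ} (I : Fin (n + 1) → ι) : ∀ (r : ℕ) (l : List (Fin (n + 1))),
    l.length ≤ r → (∀ k, (l.map fun i => u (I i) k).sum = 0) →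
    Even (l.map fun i => E.B.deg (I i)).sum →
    (l.map fun i => W.map (pr X n i) (E.B.b (I i))).prod ∈
      Algebra.adjoin W.K (shortTate Φ X (bound b A) n) := by
  intro r
  induction r with
  | zero =>
    intro l hl _ _
    rw [List.length_eq_zero_iff.1 (Nat.le_zero.1 hl)]
    simpa using Subalgebra.one_mem _
  | succ r ih =>
    intro l hl hz he
    rcases eq_or_ne l [] with rfl | hne
    · simpa using Subalgebra.one_mem _
    obtain ⟨l₁, l₂, hperm, hl₁, hlen, hz₁, he₁⟩ := exists_split_even (fun i => u (I i))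
      (fun i k => hu (I i) k) (fun i => E.B.deg (I i)) l hne hz he
    have hz₂ : ∀ k, (l₂.map fun i => u (I i) k).sum = 0 := by
      intro k
      have h := hz k
      rw [(hperm.map _).sum_eq, List.map_append, List.sum_append, hz₁ k, zero_add] at h
      exact h
    have he₂ : Even (l₂.map fun i => E.B.deg (I i)).sum := by
      rw [(hperm.map _).sum_eq, List.map_append, List.sum_append] at he
      exact (Nat.even_add.1 he).1 he₁
    have hlen₂ : l₂.length ≤ r := by
      have h := hperm.length_eq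
      rw [List.length_append] at h
      have := List.length_pos_iff.2 hl₁
      omega
    obtain ⟨ε, hε, hprod⟩ := prod_perm (W := W) (Z := pw X n)
      (hperm.map (fun i => W.map (pr X n i) (E.B.b (I i)))) (by
        intro x hx
        obtain ⟨i, -, rfl⟩ := List.mem_map.1 hx
        exact ⟨_, W.map_mem _ (E.B.mem _)⟩)
    rw [hprod, List.map_append, List.prod_append]
    refine Subalgebra.smul_mem _ (Subalgebra.mul_mem _ ?_ (ih l₂ hlen₂ hz₂ he₂)) _
    apply Algebra.subset_adjoin
    -- the short factor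
    obtain ⟨m, hm⟩ : ∃ m, l₁.length = m + 1 := by
      obtain ⟨m, hm⟩ := Nat.exists_eq_succ_of_ne_zero (fun h => hl₁ (List.length_eq_zero_iff.1 h))
      exact ⟨m, hm⟩
    let g : Fin (m + 1) → Fin (n + 1) := fun i => l₁.get (i.cast hm.symm)
    have hg : l₁ = List.ofFn g := by
      apply List.ext_get
      · rw [List.length_ofFn, hm]
      · intro i h1 h2
        rw [List.get_ofFn]
        rfl
    obtain ⟨s, j, hs, ht⟩ := mono_tate E u hrel (fun i => pr X m i) (fun i => I (g i))
      (List.finRange (m + 1)) (fun k => by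
        have h := hz₁ k
        rw [hg, List.map_ofFn] at h
        rw [← List.ofFn_eq_map]
        exact h) (by
        have h := he₁
        rw [hg, List.map_ofFn] at h
        rw [← List.ofFn_eq_map]
        exact h)
    refine ⟨m, by omega, g, s, j, hs, _, ht, ?_⟩
    rw [hg, List.map_ofFn, ← List.ofFn_eq_map, map_list_prod, List.map_ofFn]
    congr 2
    funext i
    rw [Function.comp_apply, Function.comp_apply, ← W.map_comp, projTo, tup_pr]

include hu hrel in
/-- **Generation.** -/
theorem genTate_le_adjoin [Finite ι] (n s j : ℕ) (hs : 0 < s) {c : W.H (pw X n)}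
    (hc : c ∈ genTate Φ (pw X n) s j) :
    c ∈ Algebra.adjoin W.K (shortTate Φ X (bound b A) n) := by
  classical
  have : Fintype ι := Fintype.ofFinite ι
  obtain ⟨bm, hbm⟩ := exists_monBasis E.B n
  have hmon : ∀ I, bm I = ((List.finRange (n + 1)).map
      fun i => W.map (pr X n i) (E.B.b (I i))).prod := by
    intro I
    rw [hbm, mon_eq, List.ofFn_eq_map]
  rw [← bm.sum_repr c]
  refine Subalgebra.sum_mem _ fun I _ => ?_
  by_cases hI : bm.repr c I = 0
  · rw [hI, zero_smul]
    exact Subalgebra.zero_mem _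
  refine Subalgebra.smul_mem _ ?_ _
  -- the degree
  have hdeg : ((List.finRange (n + 1)).map fun i => E.B.deg (I i)).sum = 2 * j := by
    by_contra hne
    apply hI
    exact repr_eq_zero (W.isInternal (pw X n)).submodule_iSupIndep bm
      (fun I => ((List.finRange (n + 1)).map fun i => E.B.deg (I i)).sum) (fun I => by
        rw [hmon]; exact mono_gr E _ _ _) hc.2 hne
  -- the eigenvalue
  have hzero : ∀ k, ((List.finRange (n + 1)).map fun i => u (I i) k).sum = 0 := by
    have hrel' := (hrel ((List.finRange (n + 1)).map I) j (by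
      rw [List.map_map]; exact hdeg)).2
    simp only [List.map_map] at hrel'
    obtain ⟨a, c', ha, hc', hac, h⟩ := frob_comm_fin (Φ := Φ) (fun i => pr X n i)
    have heig : ∀ I : Fin (n + 1) → ι, bm I ∈ (frob Φ (pw X n) (a * s)).maxGenEigenspace
        (((List.finRange (n + 1)).map fun i => E.α (I i)).prod ^ (c' * s)) := by
      intro I
      rw [hmon]
      have h1 : ((List.finRange (n + 1)).map fun i => E.α (I i)).prod ^ (c' * s) =
          ((List.finRange (n + 1)).map fun i => E.α (I i) ^ (c' * s)).prod := by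
        generalize List.finRange (n + 1) = l
        induction l with
        | nil => simp
        | cons i l ih =>
          rw [List.map_cons, List.prod_cons, mul_pow, ih, List.map_cons, List.prod_cons]
      rw [h1]
      apply gen_prod
      · intro x y
        rw [frob_apply, map_mul]
        rfl
      · rw [frob_apply, map_one]
      · intro i _
        have h2 : E.B.b (I i) ∈ (frob Φ X (c' * s)).maxGenEigenspace (E.α (I i) ^ (c' * s)) := by
          rw [frob_eq_pow]
          exact gen_mono _ _ _ (E.mem (I i))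
        exact gen_intertwine (θ := (W.map (pr X n i)).toLinearMap) (fun y => (h i s y).symm) h2
    have hc1 : c ∈ (frob Φ (pw X n) (a * s)).maxGenEigenspace
        ((card Φ (pw X n) (a * s) : W.K) ^ j) := (genTate_mono' Φ s a j hc).1
    have heq : ((List.finRange (n + 1)).map fun i => E.α (I i)).prod ^ (c' * s) =
        (card Φ (pw X n) (a * s) : W.K) ^ j := by
      by_contra hne
      apply hI
      exact repr_eq_zero (Module.End.independent_maxGenEigenspace (frob Φ (pw X n) (a * s))) bm
        (fun I => ((List.finRange (n + 1)).map fun i => E.α (I i)).prod ^ (c' * s)) heig hc1 hne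
    refine hrel' ⟨c' * s, Nat.mul_pos hc' hs, ?_⟩
    refine heq.trans ?_
    rw [card_cast, ← pow_mul, ← pow_mul, ← pow_mul]
    congr 1
    calc Φ.e (pw X n) * (a * s) * j = (a * Φ.e (pw X n)) * (s * j) := by ring
      _ = _ := by rw [hac]; ring
  rw [hmon]
  exact mono_mem_adjoin E u hu hrel I _ _ le_rfl hzero (by rw [hdeg]; exact even_two_mul j)

end Main

end Pool.Agent.Q68.FD
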