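import Pool.Agent.Q68.FD.Gen
import Pool.Agent.Y133.Half.TateSS

/-!
# The finite determination of the Tate conjecture for the powers of a variety
-/

set_option linter.unusedVariables false
set_option linter.unusedSectionVars false

open CategoryTheory AlgebraicGeometry

universe u v

namespace Pool.Agent.Q68.FD

open Polynomial Pool.Agent.H914 Pool.Agent.W534 VarClass Obj WeilCohomology Pool.Agent.Y163 Module
open Pool.Agent.H281R3.HT Pool.Agent.W536.RR

variable {k : Type u} [Field k] {𝒱 : VarClass k} {ops : CycleOps 𝒱}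
  {W : WeilCohomology.{u, v} ops} {X Y Z : 𝒱.Obj} {p : ℕ} {Φ : FrobSystem W p}

lemma EBasis.deg_le [Fact p.Prime] {D : ℕ} {ι : Type v} (E : EBasis Φ X D ι) (i : ι) :
    E.B.deg i ≤ 2 * X.dim := by
  by_contra hcon
  have h1 := E.B.mem i
  rw [W.gr_eq_bot X _ (not_le.1 hcon)] at h1
  exact E.B.b.ne_zero i ((Submodule.mem_bot _).1 h1)

/-- The vectors of slopes for the cohomology of `X`. -/
theorem EBasis.vectors [IsAlgClosed W.K] [Fact p.Prime] {D : ℕ} (hD : 0 < D) {ι : Type v}
    [Finite ι] (E : EBasis Φ X D ι) {b : ℕ} (hb : finrank W.K (W.H X) ≤ b) :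
    ∃ u : ι → Fin b → ℤ, (∀ i k, |u i k| ≤ ((D * (2 * X.dim) : ℕ) : ℤ)) ∧
      ∀ (l : List ι) (j : ℕ), (l.map E.B.deg).sum = 2 * j →
        ((∀ k, (l.map fun i => u i k).sum = 0) ↔
          ∃ t, 0 < t ∧ (l.map E.α).prod ^ t = (((p : W.K) ^ Φ.e X) ^ j) ^ t) := by
  have hcard : Nat.card ι ≤ b := by
    rw [← Module.finrank_eq_nat_card_basis E.B.b]
    exact hb
  exact exists_vectors (Φ.e_pos X) hD hcard E.α E.B.deg E.P E.deg_le E.weil E.root

/-- **Generation.** -/
theorem mem_adjoin_short [IsAlgClosed W.K] [Fact p.Prime] {b D : ℕ} (hD : 0 < D)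
    (hb : finrank W.K (W.H X) ≤ b) (hX : HasWeilPolys Φ X D) {n s j : ℕ} (hs : 0 < s)
    {c : W.H (pw X n)} (hc : c ∈ genTate Φ (pw X n) s j) :
    c ∈ Algebra.adjoin W.K (shortTate Φ X (bound b (D * (2 * X.dim))) n) := by
  obtain ⟨ι, hι, ⟨E⟩⟩ := exists_ebasis hX
  obtain ⟨u, hu, hrel⟩ := E.vectors hD hb
  exact genTate_le_adjoin E u hu hrel n s j hs hc

lemma spanCycles_le_algSpan (j : ℤ) : spanCycles W Z j ≤ algSpan W Z := by
  rw [spanCycles, Submodule.span_le]
  rintro _ ⟨i, -, z, hz, rfl⟩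
  exact cl_mem_algSpan hz

/-- The algebraic classes as a subalgebra. -/
noncomputable def algSub (W : WeilCohomology.{u, v} ops) (Z : 𝒱.Obj) : Subalgebra W.K (W.H Z) where
  carrier := algSpan W Z
  mul_mem' := fun ha hb => algSpan_mul ha hb
  add_mem' := fun ha hb => Submodule.add_mem _ ha hb
  algebraMap_mem' := fun r => by
    rw [Algebra.algebraMap_eq_smul_one]
    exact Submodule.smul_mem _ _ one_mem_algSpan

/-- If the short Tate classes are algebraic then so are all of them. -/
theorem semisimpleTate_of_short [IsAlgClosed W.K] [Fact p.Prime] {b D : ℕ} (hD : 0 < D)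
    (hb : finrank W.K (W.H X) ≤ b) (hX : HasWeilPolys Φ X D)
    (h : ∀ m < bound b (D * (2 * X.dim)), ∀ j, SemisimpleTateIn Φ (pw X m) j) (n j : ℕ) :
    SemisimpleTateIn Φ (pw X n) j := by
  intro s hs c hc
  refine Pool.Agent.Y133.Half.spanCycles_of_algSpan ?_ hc.2
  have h1 := mem_adjoin_short hD hb hX hs hc
  have h2 : Algebra.adjoin W.K (shortTate Φ X (bound b (D * (2 * X.dim))) n) ≤
      algSub W (pw X n) := by
    rw [Algebra.adjoin_le_iff]
    rintro _ ⟨m, hm, g, s', j', hs', t, ht, rfl⟩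
    exact algSpan_map _ (spanCycles_le_algSpan _ (h m hm j' s' hs' ht))
  exact h2 h1

lemma eig_of_semisimple {K V : Type*} [Field K] [AddCommGroup V] [Module K V]
    [FiniteDimensional K V] {f : Module.End K V} (hf : f.IsSemisimple) {μ : K} {x : V}
    (hx : x ∈ f.maxGenEigenspace μ) : f x = μ • x := by
  rw [hf.isFinitelySemisimple.maxGenEigenspace_eq_eigenspace] at hx
  exact Module.End.mem_eigenspace_iff.1 hx

/-- If the Frobenius endomorphism acts semisimply on the cohomology of `X`, the generalised Tate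
classes on the powers of `X` are Tate classes. -/
theorem isTate_of_genTate [IsAlgClosed W.K] [Fact p.Prime] {D : ℕ} (hX : HasWeilPolys Φ X D)
    (hss : Pool.Agent.Y133.Half.FrobSemisimple Φ X) {n s j : ℕ} (hs : 0 < s)
    {c : W.H (pw X n)} (hc : c ∈ genTate Φ (pw X n) s j) : IsTate Φ (pw X n) j c := by
  classical
  obtain ⟨ι, hι, ⟨E⟩⟩ := exists_ebasis hX
  obtain ⟨bm, hbm⟩ := exists_monBasis E.B n
  obtain ⟨a, c', ha, hc', hac, h⟩ := frob_comm_fin (Φ := Φ) (fun i => pr X n i)
  have heig : ∀ I : Fin (n + 1) → ι, frob Φ (pw X n) (a * s) (bm I) =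
      (∏ i, E.α (I i) ^ (c' * s)) • bm I := by
    intro I
    rw [hbm, mon_eq, List.ofFn_eq_map, ← List.prod_ofFn, List.ofFn_eq_map]
    generalize List.finRange (n + 1) = l
    induction l with
    | nil => rw [List.map_nil, List.map_nil, List.prod_nil, List.prod_nil, frob_apply, map_one,
        one_smul]
    | cons i l ih =>
      have h1 : ∀ x y, frob Φ (pw X n) (a * s) (x * y) =
          frob Φ (pw X n) (a * s) x * frob Φ (pw X n) (a * s) y := by
        intro x y
        rw [frob_apply, map_mul]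
        rfl
      have h2 : frob Φ (pw X n) (a * s) (W.map (pr X n i) (E.B.b (I i))) =
          (E.α (I i) ^ (c' * s)) • W.map (pr X n i) (E.B.b (I i)) := by
        have h3 := h i s (E.B.b (I i))
        have h4 : frob Φ X (c' * s) (E.B.b (I i)) = (E.α (I i) ^ (c' * s)) • E.B.b (I i) := by
          have h5 := eig_of_semisimple hss (E.mem (I i))
          rw [frob_eq_pow]
          generalize c' * s = m
          induction m with
          | zero => rw [pow_zero, pow_zero, Module.End.one_apply, one_smul]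
          | succ m ihm =>
            rw [pow_succ', Module.End.mul_apply, ihm, map_smul, h5, smul_smul, ← pow_succ]
        rw [frob_apply, h3]
        rw [frob_apply] at h4
        rw [h4, map_smul]
      rw [List.map_cons, List.prod_cons, List.map_cons, List.prod_cons, h1, h2, ih,
        smul_mul_smul_comm]
  have hc1 : c ∈ (frob Φ (pw X n) (a * s)).maxGenEigenspace
      ((card Φ (pw X n) (a * s) : W.K) ^ j) := (genTate_mono' Φ s a j hc).1
  refine ⟨hc.2, a * s, Nat.mul_pos ha hs, ?_⟩
  rw [← card_pow]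
  change frob Φ (pw X n) (a * s) c = _
  have : Fintype ι := Fintype.ofFinite ι
  rw [← bm.sum_repr c, map_sum, Finset.smul_sum]
  refine Finset.sum_congr rfl fun I _ => ?_
  by_cases hI : bm.repr c I = 0
  · rw [hI, zero_smul, map_zero, smul_zero]
  have heq : (∏ i, E.α (I i) ^ (c' * s)) = (card Φ (pw X n) (a * s) : W.K) ^ j := by
    by_contra hne
    apply hI
    refine repr_eq_zero (Module.End.independent_maxGenEigenspace (frob Φ (pw X n) (a * s))) bm
      (fun I => ∏ i, E.α (I i) ^ (c' * s)) (fun I => ?_) hc1 hne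
    rw [Module.End.mem_maxGenEigenspace]
    refine ⟨1, ?_⟩
    rw [pow_one, LinearMap.sub_apply, heig, LinearMap.smul_apply, Module.End.one_apply, sub_self]
  rw [map_smul, heig, heq, smul_comm]

/-- The same for the Tate classes, if the Frobenius endomorphism is semisimple. -/
theorem tate_of_short [IsAlgClosed W.K] [Fact p.Prime] {b D : ℕ} (hD : 0 < D)
    (hb : finrank W.K (W.H X) ≤ b) (hX : HasWeilPolys Φ X D)
    (hss : Pool.Agent.Y133.Half.FrobSemisimple Φ X)
    (h : ∀ m < bound b (D * (2 * X.dim)), ∀ j, TateIn Φ (pw X m) j) (n j : ℕ) :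
    TateIn Φ (pw X n) j := by
  intro c hc
  obtain ⟨s, hs, hc'⟩ := IsTate.mem Φ hc
  exact semisimpleTate_of_short hD hb hX (fun m hm j s hs c hc =>
    h m hm j c (isTate_of_genTate hX hss hs hc)) n j s hs hc'

end Pool.Agent.Q68.FD
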